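import Mathlib
import Pool.Agent.H458.Sp.HallAll
import Pool.Agent.H458.Sp.Digits

set_option autoImplicit false

/-!
# Hall's inequality with its conjectured exponents for sparse integers, uniformly in the base

Let `b ≥ 2` be any integer, and let `x` and `y` be combinations of the same `r` powers of `b` with
integral coefficients of absolute value at most `B` (for instance, integers with `r` nonzero digits
in base `b` altogether, with `B = b - 1`; or the values at `b` of two polynomials with `r` monomials
altogether and coefficients at most `B`, of any degree).  If `k = y ^ 2 - x ^ 3` is not zero, then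
`|x| ≤ C |k| ^ 2` and `|y| ≤ C |k| ^ 3` with an explicit constant `C` that only depends on `r` and
`B`.  More generally, for all exponents `n`, `m`, if `k = x ^ n - y ^ m` is nonzero, then
`|x| ≤ C |k| ^ (m / (mn - m - n))` and `|y| ≤ C |k| ^ (n / (mn - m - n))`.

Method: Dirichlet's box principle gives a transfer principle: `(x, y)` is the value at `b` of a pair
of polynomials with bounded coefficients, such that the size of the value of every polynomial
of bounded degree at `(x, y)` is measured by the degree of the corresponding polynomial in one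
variable.  The inequality for polynomials is Davenport's, proved here for polynomials that may
have common factors.
-/

namespace Pool.Agent.Results.MP_f2148a_nt.SparseHall

open Pool.Agent.H458.Sp

/-- the constant in Hall's inequality for `r` powers of `b` and coefficients at most `B` -/
def hallConst (r B : ℕ) : ℕ := r * B * (2 * (3 * (r * B) ^ 3) ^ 2) ^ (4 * 12 ^ r)

theorem result :
    (∀ (b r B : ℕ) (x y k : ℤ), 2 ≤ b → SparsePair b r B x y → k ≠ 0 → y ^ 2 = x ^ 3 + k →
      |x| ≤ hallConst r B * |k| ^ 2 ∧ |y| ≤ hallConst r B * |k| ^ 3) ∧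
    ∀ (n m b r B : ℕ) (x y : ℤ), 1 ≤ n → 1 ≤ m → 2 ≤ b → SparsePair b r B x y → x ^ n ≠ y ^ m →
      |x| ^ (m * n - m - n) ≤
        ((r * B * (2 * (3 * (r * B) ^ (max n m)) ^ 2) ^ (4 * (4 * max n m) ^ r) : ℕ) : ℤ) ^
          (m * n - m - n) * |x ^ n - y ^ m| ^ m ∧
      |y| ^ (m * n - m - n) ≤
        ((r * B * (2 * (3 * (r * B) ^ (max n m)) ^ 2) ^ (4 * (4 * max n m) ^ r) : ℕ) : ℤ) ^
          (m * n - m - n) * |x ^ n - y ^ m| ^ n := by
  have h3 : ∀ (n m b r B : ℕ) (x y : ℤ), 1 ≤ n → 1 ≤ m → 2 ≤ b → SparsePair b r B x y →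
      x ^ n ≠ y ^ m →
      |x| ^ (m * n - m - n) ≤
        ((r * B * (2 * (3 * (r * B) ^ (max n m)) ^ 2) ^ (4 * (4 * max n m) ^ r) : ℕ) : ℤ) ^
          (m * n - m - n) * |x ^ n - y ^ m| ^ m ∧
      |y| ^ (m * n - m - n) ≤
        ((r * B * (2 * (3 * (r * B) ^ (max n m)) ^ 2) ^ (4 * (4 * max n m) ^ r) : ℕ) : ℤ) ^
          (m * n - m - n) * |x ^ n - y ^ m| ^ n := by
    rintro n m b r B x y hn hm hb ⟨e, c, c', hc, hc', hx, hy⟩ hne
    exact sparse_hall_all n m hn hm b hb B e c c' hc hc' x y hx hy hne
  refine ⟨?_, h3⟩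
  intro b r B x y k hb hS hk hxy
  have h4 := h3 3 2 b r B x y (by norm_num) (by norm_num) hb hS (by
    intro h
    apply hk
    rw [← h] at hxy
    linarith)
  have h5 : |x ^ 3 - y ^ 2| = |k| := by
    rw [hxy, ← abs_neg]
    congr 1
    ring
  rw [h5] at h4
  norm_num at h4
  unfold hallConst
  push_cast
  rw [sq_abs]
  exact h4

end Pool.Agent.Results.MP_f2148a_nt.SparseHall
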