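import Pool.Agent.H925R.Hall.Final

/-!
Violations of Hall's inequality `max (|x|, |y|) ≤ C |k| ^ 3` for `y ^ 2 = x ^ 3 + k` are sparse:
for every `A ≥ 2` at most `M K ^ (A/4 + 1/6 + ε)` integers `k`, `0 < |k| ≤ K`, have an integral
point with `max (|x|, |y|) > C |k| ^ 3` and `|x| ≤ K ^ A`.
-/

set_option autoImplicit false

namespace Pool.Agent.Results.MP_f2148a_nt.SparseViolations

open Pool.Agent.H925R.Hall

/-- A covering bound. -/
theorem ncard_le_of_cover {ι α : Type*} {K : ℕ} (J : Finset ι) (S : ι → Set α)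
    (hS : ∀ j ∈ J, (S j).Finite ∧ (S j).ncard ≤ K) (P : Set α) (hP : ∀ b ∈ P, ∃ j ∈ J, b ∈ S j) :
    P.ncard ≤ J.card * K := by
  classical
  let F : ι → Finset α := fun j => if h : (S j).Finite then h.toFinset else ∅
  have hF : ∀ j ∈ J, (F j).card ≤ K := by
    intro j hj
    simp only [F]
    rw [dif_pos (hS j hj).1, ← Set.ncard_eq_toFinset_card _ (hS j hj).1]
    exact (hS j hj).2
  have hsub : P ⊆ ((J.biUnion F : Finset α) : Set α) := by
    intro b hb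
    obtain ⟨j, hj, hbj⟩ := hP b hb
    rw [Finset.mem_coe, Finset.mem_biUnion]
    refine ⟨j, hj, ?_⟩
    simp only [F]
    rw [dif_pos (hS j hj).1, Set.Finite.mem_toFinset]
    exact hbj
  calc P.ncard ≤ ((J.biUnion F : Finset α) : Set α).ncard :=
        Set.ncard_le_ncard hsub (Finset.finite_toSet _)
    _ = (J.biUnion F).card := Set.ncard_coe_finset _
    _ ≤ ∑ j ∈ J, (F j).card := Finset.card_biUnion_le
    _ ≤ ∑ _j ∈ J, K := Finset.sum_le_sum hF
    _ = J.card * K := by rw [Finset.sum_const, smul_eq_mul]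

/-- A violation has `|k| ≤ k₀` or `|k| ≤ C' |x| ^ (1/2)`. -/
theorem small_or {C : ℝ} (hC : 0 < C) : ∃ C' k₀ : ℝ, 0 < C' ∧ 0 < k₀ ∧ ∀ k x y : ℤ, k ≠ 0 →
    y ^ 2 = x ^ 3 + k → C * |(k : ℝ)| ^ 3 < max |(x : ℝ)| |(y : ℝ)| →
    |(k : ℝ)| ≤ k₀ ∨ |(k : ℝ)| ≤ C' * |(x : ℝ)| ^ ((1 : ℝ) / 2) := by
  have hcube : ∀ t : ℝ, 0 < t → (t ^ ((1 : ℝ) / 3)) ^ 3 = t := by
    intro t ht
    rw [← Real.rpow_natCast, ← Real.rpow_mul ht.le]
    norm_num
  set D : ℝ := max (1 / C) ((2 / C ^ 2) ^ ((1 : ℝ) / 3)) with hD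
  have hD0 : 0 < D := lt_of_lt_of_le (by positivity) (le_max_left _ _)
  have hD1 : 1 / C ≤ D := le_max_left _ _
  have hD2 : 2 / C ^ 2 ≤ D ^ 3 := by
    have h1 : (2 / C ^ 2) ^ ((1 : ℝ) / 3) ≤ D := le_max_right _ _
    calc 2 / C ^ 2 = ((2 / C ^ 2) ^ ((1 : ℝ) / 3)) ^ 3 := (hcube _ (by positivity)).symm
      _ ≤ D ^ 3 := pow_le_pow_left₀ (by positivity) h1 3
  refine ⟨D ^ ((1 : ℝ) / 2), 1 + 2 / C ^ 2, by positivity, by positivity, ?_⟩
  intro k x y hk he hv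
  have hk1 : 1 ≤ |(k : ℝ)| := by
    have := Int.one_le_abs hk
    exact_mod_cast this
  set κ : ℝ := |(k : ℝ)| with hκ
  set ξ : ℝ := |(x : ℝ)| with hξ
  have hξ0 : 0 ≤ ξ := abs_nonneg _
  have key : κ ^ 2 ≤ D * ξ → κ ≤ D ^ ((1 : ℝ) / 2) * ξ ^ ((1 : ℝ) / 2) := by
    intro h
    rw [← Real.mul_rpow hD0.le hξ0, ← Real.sqrt_eq_rpow]
    exact Real.le_sqrt_of_sq_le h
  rcases lt_max_iff.mp hv with h | h
  · right
    apply key
    have h1 : κ ^ 2 ≤ κ ^ 3 := pow_le_pow_right₀ hk1 (by norm_num)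
    have h2 : κ ^ 3 ≤ 1 / C * ξ := by
      rw [div_mul_eq_mul_div, one_mul, le_div_iff₀ hC]
      linarith
    calc κ ^ 2 ≤ 1 / C * ξ := h1.trans h2
      _ ≤ D * ξ := mul_le_mul_of_nonneg_right hD1 hξ0
  · have hy : (y : ℝ) ^ 2 = (x : ℝ) ^ 3 + k := by exact_mod_cast he
    have h1 : (C * κ ^ 3) ^ 2 < (y : ℝ) ^ 2 := by
      rw [← sq_abs (y : ℝ)]
      exact pow_lt_pow_left₀ h (by positivity) (by norm_num)
    have h2 : (x : ℝ) ^ 3 ≤ ξ ^ 3 := by
      calc (x : ℝ) ^ 3 ≤ |(x : ℝ) ^ 3| := le_abs_self _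
        _ = ξ ^ 3 := abs_pow _ _
    have h3 : (k : ℝ) ≤ κ := le_abs_self _
    have h4 : C ^ 2 * κ ^ 6 < ξ ^ 3 + κ := by
      have : (C * κ ^ 3) ^ 2 = C ^ 2 * κ ^ 6 := by ring
      rw [this] at h1
      linarith
    by_cases h5 : 2 * κ ≤ C ^ 2 * κ ^ 6
    · right
      apply key
      have h6 : C ^ 2 * κ ^ 6 ≤ 2 * ξ ^ 3 := by linarith
      have h7 : (κ ^ 2) ^ 3 ≤ (D * ξ) ^ 3 := by
        calc (κ ^ 2) ^ 3 = κ ^ 6 := by ring
          _ ≤ 2 / C ^ 2 * ξ ^ 3 := by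
              rw [div_mul_eq_mul_div, le_div_iff₀ (by positivity)]
              linarith
          _ ≤ D ^ 3 * ξ ^ 3 := by gcongr
          _ = (D * ξ) ^ 3 := by ring
      exact le_of_pow_le_pow_left₀ (by norm_num) (by positivity) h7
    · left
      push Not at h5
      have h6 : C ^ 2 * κ ^ 5 < 2 := by
        have : C ^ 2 * κ ^ 6 = (C ^ 2 * κ ^ 5) * κ := by ring
        rw [this] at h5
        exact lt_of_mul_lt_mul_right h5 (by linarith)
      have h7 : κ ≤ κ ^ 5 := by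
        calc κ = κ ^ 1 := (pow_one _).symm
          _ ≤ κ ^ 5 := pow_le_pow_right₀ hk1 (by norm_num)
      have h8 : κ ^ 5 < 2 / C ^ 2 := by
        rw [lt_div_iff₀ (by positivity)]
        linarith
      linarith

theorem result (C A ε : ℝ) (hC : 0 < C) (hA : 2 ≤ A) (hε : 0 < ε) : ∃ M : ℝ, ∀ K : ℝ, 1 ≤ K →
    ({k : ℤ | k ≠ 0 ∧ |(k : ℝ)| ≤ K ∧ ∃ x y : ℤ, y ^ 2 = x ^ 3 + k ∧
      C * |(k : ℝ)| ^ 3 < max |(x : ℝ)| |(y : ℝ)| ∧ |(x : ℝ)| ≤ K ^ A}.ncard : ℝ) ≤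
      M * K ^ (A / 4 + 1 / 6 + ε) := by
  obtain ⟨C', k₀, hC', hk₀, hor⟩ := small_or hC
  set ε' : ℝ := ε / (2 * A) with hε'
  have hA0 : 0 < A := by linarith
  have hε'0 : 0 < ε' := by positivity
  obtain ⟨M₁, hM₁⟩ := main C' ε' hε'0
  obtain ⟨M₂, hM₂⟩ := main 1 ε' hε'0
  obtain ⟨n, hn⟩ := exists_nat_ge ((A - 2) / (6 * ε))
  set m : ℕ := n + 1 with hm
  have hm0 : (0 : ℝ) < m := by rw [hm]; positivity
  set η : ℝ := (A - 2) / m with hη
  have hη0 : 0 ≤ η := by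
    rw [hη]
    exact div_nonneg (by linarith) hm0.le
  have hη1 : η ≤ 6 * ε := by
    rw [hη, div_le_iff₀ hm0]
    have h1 : (A - 2) ≤ n * (6 * ε) := by
      rw [div_le_iff₀ (by positivity)] at hn
      exact hn
    have h2 : (n : ℝ) ≤ m := by rw [hm]; push_cast; linarith
    nlinarith
  set E : ℝ := A / 4 + 1 / 6 + ε with hE
  have hE0 : 0 ≤ E := by rw [hE]; positivity
  set M' : ℝ := (2 * k₀ + 1) + |M₁| + |M₂| with hM'
  have hM'0 : 0 ≤ M' := by rw [hM']; positivity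
  refine ⟨(m + 2 : ℕ) * M', fun K hK => ?_⟩
  have hK0 : (0 : ℝ) < K := by linarith
  set Bd : ℕ := ⌊M' * K ^ E⌋₊ with hBd
  set B : ℕ → ℝ := fun i => 2 + i * η with hB
  have hBm : B m = A := by
    simp only [hB, hη]
    field_simp
    ring
  have hB2 : ∀ i, 2 ≤ B i := by
    intro i
    simp only [hB]
    have : 0 ≤ (i : ℝ) * η := by positivity
    linarith
  have hBs : ∀ i, B (i + 1) = B i + η := by
    intro i
    simp only [hB]
    push_cast
    ring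
  have hBA : ∀ i, i ≤ m → B i ≤ A := by
    intro i hi
    rw [← hBm]
    simp only [hB]
    have : (i : ℝ) ≤ m := by exact_mod_cast hi
    nlinarith
  have hKE : 1 ≤ K ^ E := Real.one_le_rpow hK hE0
  -- the sets
  set f : ℤ × ℤ → ℤ := fun e => e.2 ^ 2 - e.1 ^ 3 with hf
  set T₀ : Set (ℤ × ℤ) := {e : ℤ × ℤ | |(e.1 : ℝ)| ≤ K ^ (2 : ℝ) ∧ e.2 ^ 2 ≠ e.1 ^ 3 ∧
        |(e.2 : ℝ) ^ 2 - (e.1 : ℝ) ^ 3| ≤ C' * |(e.1 : ℝ)| ^ ((1 : ℝ) / 2)} with hT₀
  set T : ℕ → Set (ℤ × ℤ) := fun i => {e : ℤ × ℤ | |(e.1 : ℝ)| ≤ K ^ (B (i + 1)) ∧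
        e.2 ^ 2 ≠ e.1 ^ 3 ∧
        |(e.2 : ℝ) ^ 2 - (e.1 : ℝ) ^ 3| ≤ 1 * |(e.1 : ℝ)| ^ (1 / B i)} with hT
  set S : ℕ → Set ℤ := fun j => if j = 0 then (Finset.Icc (-⌊k₀⌋) ⌊k₀⌋ : Set ℤ) else
    if j = 1 then f '' T₀ else f '' (T (j - 2)) with hS
  have hS0 : (S 0).Finite ∧ (S 0).ncard ≤ Bd := by
    have : S 0 = (Finset.Icc (-⌊k₀⌋) ⌊k₀⌋ : Set ℤ) := by simp [hS]
    rw [this]
    refine ⟨Finset.finite_toSet _, ?_⟩
    rw [Set.ncard_coe_finset, Int.card_Icc]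
    rw [hBd]
    apply Nat.le_floor
    have h1 : (0 : ℤ) ≤ ⌊k₀⌋ := Int.floor_nonneg.mpr hk₀.le
    have h2 : ((⌊k₀⌋ + 1 - -⌊k₀⌋).toNat : ℝ) = 2 * (⌊k₀⌋ : ℝ) + 1 := by
      have h3 : (((⌊k₀⌋ + 1 - -⌊k₀⌋).toNat : ℤ)) = 2 * ⌊k₀⌋ + 1 := by
        rw [Int.toNat_of_nonneg (by omega)]
        ring
      exact_mod_cast h3
    rw [h2]
    have h4 : (⌊k₀⌋ : ℝ) ≤ k₀ := Int.floor_le _
    have h5 : 2 * k₀ + 1 ≤ M' := by
      rw [hM']
      have := abs_nonneg M₁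
      have := abs_nonneg M₂
      linarith
    calc 2 * (⌊k₀⌋ : ℝ) + 1 ≤ M' := by linarith
      _ = M' * 1 := (mul_one _).symm
      _ ≤ M' * K ^ E := by gcongr
  have hS1 : (S 1).Finite ∧ (S 1).ncard ≤ Bd := by
    have : S 1 = f '' T₀ := by simp [hS]
    rw [this]
    have h := hM₁ (1 / 2) (by norm_num) (by norm_num) (K ^ (2 : ℝ))
      (Real.one_le_rpow hK (by norm_num))
    refine ⟨h.1.image _, ?_⟩
    rw [hBd]
    apply Nat.le_floor
    have hfin : T₀.Finite := h.1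
    have h1 : ((f '' T₀).ncard : ℝ) ≤ T₀.ncard := by
      exact_mod_cast (Set.ncard_image_le hfin : (f '' T₀).ncard ≤ T₀.ncard)
    refine h1.trans (h.2.trans ?_)
    rw [← Real.rpow_mul hK0.le]
    have h2 : (2 : ℝ) * (1 / 4 + 1 / 2 / 6 + ε') ≤ E := by
      rw [hE]
      have h3 : 2 * ε' ≤ ε := by
        rw [hε', mul_div_assoc', div_le_iff₀ (by positivity)]
        nlinarith
      linarith
    calc M₁ * K ^ ((2 : ℝ) * (1 / 4 + 1 / 2 / 6 + ε')) ≤ |M₁| *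
          K ^ ((2 : ℝ) * (1 / 4 + 1 / 2 / 6 + ε')) := by gcongr; exact le_abs_self _
      _ ≤ M' * K ^ E := by
          apply mul_le_mul _ (Real.rpow_le_rpow_of_exponent_le hK h2) (by positivity) hM'0
          rw [hM']
          have := abs_nonneg M₂
          linarith
  have hS2 : ∀ i, i < m → (S (i + 2)).Finite ∧ (S (i + 2)).ncard ≤ Bd := by
    intro i hi
    have : S (i + 2) = f '' T i := by simp [hS]
    rw [this]
    have hBi := hB2 i
    have h := hM₂ (1 / B i) (by positivity) (by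
      apply one_div_le_one_div_of_le (by norm_num) hBi) (K ^ (B (i + 1)))
      (Real.one_le_rpow hK (by linarith [hB2 (i + 1)]))
    refine ⟨h.1.image _, ?_⟩
    rw [hBd]
    apply Nat.le_floor
    have hfin : (T i).Finite := h.1
    have h1 : ((f '' T i).ncard : ℝ) ≤ (T i).ncard := by
      exact_mod_cast (Set.ncard_image_le hfin : (f '' T i).ncard ≤ (T i).ncard)
    refine h1.trans (h.2.trans ?_)
    rw [← Real.rpow_mul hK0.le]
    have h2 : B (i + 1) * (1 / 4 + 1 / B i / 6 + ε') ≤ E := by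
      have hA' := hBA (i + 1) hi
      have h3 : B (i + 1) * (1 / B i) ≤ 1 + η / 2 := by
        rw [hBs, mul_one_div, div_le_iff₀ (by linarith)]
        nlinarith
      have h4 : B (i + 1) * ε' ≤ ε / 2 := by
        calc B (i + 1) * ε' ≤ A * ε' := by gcongr
          _ = ε / 2 := by rw [hε']; field_simp
      have h5 : B (i + 1) * (1 / 4 + 1 / B i / 6 + ε') =
          B (i + 1) / 4 + (B (i + 1) * (1 / B i)) / 6 + B (i + 1) * ε' := by ring
      rw [h5, hE]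
      linarith
    calc M₂ * K ^ (B (i + 1) * (1 / 4 + 1 / B i / 6 + ε')) ≤ |M₂| *
          K ^ (B (i + 1) * (1 / 4 + 1 / B i / 6 + ε')) := by gcongr; exact le_abs_self _
      _ ≤ M' * K ^ E := by
          apply mul_le_mul _ (Real.rpow_le_rpow_of_exponent_le hK h2) (by positivity) hM'0
          rw [hM']
          have := abs_nonneg M₁
          linarith
  have hcov := ncard_le_of_cover (K := Bd) (Finset.range (m + 2)) S (by
    intro j hj
    rw [Finset.mem_range] at hj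
    rcases j with _ | _ | i
    · exact hS0
    · exact hS1
    · exact hS2 i (by omega))
    {k : ℤ | k ≠ 0 ∧ |(k : ℝ)| ≤ K ∧ ∃ x y : ℤ, y ^ 2 = x ^ 3 + k ∧
      C * |(k : ℝ)| ^ 3 < max |(x : ℝ)| |(y : ℝ)| ∧ |(x : ℝ)| ≤ K ^ A} (by
    rintro k ⟨hk, hkK, x, y, he, hv, hx⟩
    have hne : y ^ 2 ≠ x ^ 3 := by
      intro h
      apply hk
      rw [h] at he
      linarith
    have hfk : f (x, y) = k := by
      simp only [hf]
      linarith
    have hkr : (y : ℝ) ^ 2 - (x : ℝ) ^ 3 = k := by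
      have : (y : ℝ) ^ 2 = (x : ℝ) ^ 3 + k := by exact_mod_cast he
      linarith
    rcases hor k x y hk he hv with h | h
    · refine ⟨0, by simp, ?_⟩
      have : S 0 = (Finset.Icc (-⌊k₀⌋) ⌊k₀⌋ : Set ℤ) := by simp [hS]
      rw [this]
      rw [Finset.coe_Icc, Set.mem_Icc]
      have h1 := abs_le.mp h
      constructor
      · have : -k ≤ ⌊k₀⌋ := Int.le_floor.mpr (by push_cast; linarith [h1.1])
        linarith
      · exact Int.le_floor.mpr h1.2
    · by_cases hx2 : |(x : ℝ)| ≤ K ^ (2 : ℝ)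
      · refine ⟨1, by simp, ?_⟩
        have : S 1 = f '' T₀ := by simp [hS]
        rw [this]
        refine ⟨(x, y), ⟨hx2, hne, ?_⟩, hfk⟩
        show |(y : ℝ) ^ 2 - (x : ℝ) ^ 3| ≤ _
        rw [hkr]
        exact h
      · push Not at hx2
        classical
        have hex : ∃ i, |(x : ℝ)| ≤ K ^ (B (i + 1)) := by
          refine ⟨n, ?_⟩
          have : B (n + 1) = A := hBm
          rw [this]
          exact hx
        set i := Nat.find hex with hi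
        have hi1 : |(x : ℝ)| ≤ K ^ (B (i + 1)) := Nat.find_spec hex
        have hin : i ≤ n := Nat.find_min' hex (by
          have : B (n + 1) = A := hBm
          rw [this]
          exact hx)
        have hi2 : K ^ (B i) ≤ |(x : ℝ)| := by
          rcases Nat.eq_zero_or_pos i with h0 | h0
          · rw [h0]
            have : B 0 = 2 := by simp [hB]
            rw [this]
            exact hx2.le
          · have h3 := Nat.find_min hex (m := i - 1) (by omega)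
            push Not at h3
            have h4 : i - 1 + 1 = i := by omega
            rw [h4] at h3
            exact h3.le
        refine ⟨i + 2, by simp only [Finset.mem_range]; omega, ?_⟩
        have : S (i + 2) = f '' T i := by simp [hS]
        rw [this]
        refine ⟨(x, y), ⟨hi1, hne, ?_⟩, hfk⟩
        show |(y : ℝ) ^ 2 - (x : ℝ) ^ 3| ≤ 1 * |(x : ℝ)| ^ (1 / B i)
        rw [hkr, one_mul]
        refine hkK.trans ?_
        have hBi := hB2 i
        calc K = (K ^ (B i)) ^ (1 / B i) := by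
              rw [← Real.rpow_mul hK0.le, mul_one_div_cancel (by linarith), Real.rpow_one]
          _ ≤ |(x : ℝ)| ^ (1 / B i) := by
              apply Real.rpow_le_rpow (by positivity) hi2 (by positivity))
  have h1 : (({k : ℤ | k ≠ 0 ∧ |(k : ℝ)| ≤ K ∧ ∃ x y : ℤ, y ^ 2 = x ^ 3 + k ∧
      C * |(k : ℝ)| ^ 3 < max |(x : ℝ)| |(y : ℝ)| ∧ |(x : ℝ)| ≤ K ^ A}.ncard : ℕ) : ℝ) ≤
      ((Finset.range (m + 2)).card * Bd : ℕ) := by exact_mod_cast hcov
  refine h1.trans ?_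
  rw [Finset.card_range, Nat.cast_mul, mul_assoc]
  gcongr
  rw [hBd]
  exact Nat.floor_le (by positivity)

end Pool.Agent.Results.MP_f2148a_nt.SparseViolations
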